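import Mathlib
import Pool.Agent.Lib.MP_610b40_an.Assembly
import Pool.Agent.Lib.MP_610b40_an.Core

set_option autoImplicit false

namespace Pool.Agent.Results.MP_610b40_an.SchubertCollapse

open Module Pool.Agent.MP610b40 Pool.Agent.Lib.MP_610b40_an

/-- Let `n ≥ 6` and let `L 0` be a configuration of `2 n` lines of `ℝ³`, indexed by `ZMod (2 n)`,
`L 0 i` meeting `L 0 (i ± 1)` and `L 0 (i ± 3)`, whose even lines are all equal.  Suppose that
`L (s + 1)` is obtained from `L s` by flipping simultaneously all even lines (`s` even) resp. all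
odd lines (`s` odd), all these flips being defined, for `s < 2 n - 7`.  Then the even lines of
`L (2 n - 7)` all coincide. -/
theorem result (n : ℕ) (hn : 6 ≤ n) (L : ℕ → ZMod (2 * n) → Line) (hX : InX (L 0))
    (h0 : ∀ i j, Even i → Even j → L 0 i = L 0 j)
    (hstep : ∀ s < 2 * n - 7, FlipClass (fun i => (Even i ↔ Even s)) (L s) (L (s + 1))) :
    ∀ i j, Even i → Even j → L (2 * n - 7) i = L (2 * n - 7) j := by
  have hn0 : n ≠ 0 := by omega
  have : NeZero n := ⟨hn0⟩
  have R := rows_of_flips hn0 L hX hstep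
  have e1 : 2 * n - 7 + 1 = 2 * (n - 4) + 2 := by omega
  rw [e1] at R
  have hM : ∀ a, row L 0 a = row L 0 0 := by
    intro a
    unfold row
    rw [h0 _ (idx n 0 0)]
    · rw [even_idx hn0]; exact Even.zero
    · rw [even_idx hn0]; exact Even.zero
  have he : Even (2 * (n - 4) + 2) := ⟨n - 4 + 1, by ring⟩
  have hc := core (K := ℝ) two_ne_zero plForm plForm_comm plForm_nondeg 4 (n - 4) n (by norm_num)
    finrank_PV (by omega) (row L) (row L 0 0) hM R.iso
    (fun t ht he a i hi => R.orthE t ht he a i hi)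
    (fun t ht ho b i hi => R.orthO t ht ho b i hi)
    (fun t he h1 hT b => linInd_even finrank_PV R t he h1 hT b)
    (fun t ho hT a => linInd_odd finrank_PV R t ho hT a)
    (fun t ht a => by
      have := R.ne (t + 1) (by omega) (by omega) a
      simpa using this)
  intro i j hi hj
  refine even_lines_eq hn0 _ (row L (2 * (n - 4) + 2) 0) (fun a => ?_) (Line.pl_ne _) i j hi hj
  obtain ⟨c, -, hc⟩ := hc 0 a
  refine ⟨c, ?_⟩
  have e2 : 2 * (n - 4) + 2 - 1 = 2 * n - 7 := by omega
  rw [hc, row, idx_even he, e2]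

end Pool.Agent.Results.MP_610b40_an.SchubertCollapse
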